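import Pool.Agent.Lib.MP_edb5be_nt.CO.Dens
import Pool.Agent.Lib.MP_edb5be_nt.CO.Law
import Pool.Agent.Lib.MP_edb5be_nt.CO.LawSet
import Pool.Agent.Lib.MP_edb5be_nt.CO.IvY

/-!
The 3x+1 map on the integers: coalescence of the trajectories of `n` and `2 ^ i * 3 ^ j * n + b`,
and the natural densities of the invariant sets and of the grand orbits.
-/

set_option autoImplicit false

namespace Pool.Agent.Results.MP_edb5be_nt.BasinsCoalesce

/-- The 3x+1 map on the integers: `x / 2` for even `x` and `(3 x + 1) / 2` for odd `x`. -/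
def T (x : ℤ) : ℤ := if x % 2 = 0 then x / 2 else (3 * x + 1) / 2

/-- The number of the odd ones among the first `t` terms `x, T x, …, T^[t - 1] x`. -/
def o (t : ℕ) (x : ℤ) : ℕ := ((Finset.range t).filter (fun s => T^[s] x % 2 ≠ 0)).card

/-- The grand orbit of `x`: the integers whose trajectory meets the trajectory of `x`. -/
def grandOrbit (x : ℤ) : Set ℤ := {n : ℤ | ∃ j k : ℕ, T^[j] n = T^[k] x}

theorem grandOrbit_eq : grandOrbit = Pool.Agent.Lib.MP_edb5be_nt.CO.grandOrbit := rfl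

theorem T_eq : T = Pool.Agent.Lib.MP_edb5be_nt.CO.T := rfl

theorem o_eq (t : ℕ) (x : ℤ) : Pool.Agent.Lib.MP_edb5be_nt.CO.od t x = o t x :=
  Pool.Agent.Lib.MP_edb5be_nt.CO.od_eq_card t x

/-- Densities and coalescence for the 3x+1 map on the integers (`e = 1`: the positive, `e = -1`:
the negative integers).
(i) Every set `S` that is `T`-invariant outside `(-y, y)` has a natural density `D`, and `D / q` in
each residue class modulo `q`, with an error that is uniform in `S` and `q`; all correlations of `S`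
along the maps `n ↦ 2 ^ i * 3 ^ j * n + b` have the density `D`.
(ii) The densities of the grand orbits add up to 1.
(iii) All but at most `C X / y ^ c` of the integers up to `X` have a trajectory that enters
`(-y, y)`.
(iv) For most `n` the trajectories of `n` and `2 ^ i * 3 ^ j * n + b` meet within `s` steps, with
the delay `i` and with the numbers of odd terms that belong to the factor `3 ^ j`; this holds along
every finite set `I` of integers that is spread over the residue classes modulo `2 ^ s`.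
(v) Let `F` be a function that is constant along the trajectories outside `(-y, y)`. Then `F` takes
the same value at `n` and `2 ^ i * 3 ^ j * n + b` for most elements `n` of every interval of `N`
integers, and the value `F n` at most elements of `[n, n + L)`, if `log L = o(log (N / y))`.
(vi) The bound in (iv) has the exact order of magnitude in every interval, on average over `2 ^ m`
consecutive integers `b`. -/
theorem result :
    ∃ c C : ℝ, 0 < c ∧ 0 < C ∧
      (∀ e : ℤ, e = 1 ∨ e = -1 →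
        (∀ (y : ℝ) (S : Set ℤ), 1 ≤ y → (∀ x : ℤ, y ≤ |(x : ℝ)| → (x ∈ S ↔ T x ∈ S)) →
          ∃ D : ℝ,
            Filter.Tendsto (fun X : ℝ =>
              ({x : ℤ | x ∈ S ∧ 0 < e * x ∧ ((e * x : ℤ) : ℝ) ≤ X}.ncard : ℝ) / X)
              Filter.atTop (nhds D) ∧
            (∀ (q : ℕ) (a : ℤ) (X : ℝ), 1 ≤ q → 2 ≤ X →
              |({n : ℤ | (n ∈ S ∧ n ≡ a [ZMOD q]) ∧
                  0 < e * n ∧ ((e * n : ℤ) : ℝ) ≤ X}.ncard : ℝ) - D * X / q| ≤
                C * (X / q * (√(Real.log (1 + q) / Real.log X) +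
                  Real.log X ^ (-(1 / 38) : ℝ)) + y ^ 2)) ∧
            ∀ A : Finset (ℕ × ℕ × ℤ), A.Nonempty →
              Filter.Tendsto (fun X : ℝ =>
                ({n : ℤ | (∀ p ∈ A, 2 ^ p.1 * 3 ^ p.2.1 * n + p.2.2 ∈ S) ∧
                  0 < e * n ∧ ((e * n : ℤ) : ℝ) ≤ X}.ncard : ℝ) / X)
                Filter.atTop (nhds D)) ∧
        (∃ δ : Set ℤ → ℝ,
          (∀ x : ℤ, Filter.Tendsto (fun X : ℝ =>
            ({n : ℤ | n ∈ grandOrbit x ∧ 0 < e * n ∧ ((e * n : ℤ) : ℝ) ≤ X}.ncard : ℝ) / X)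
            Filter.atTop (nhds (δ (grandOrbit x)))) ∧
          HasSum (fun O : Set.range grandOrbit => δ O) 1) ∧
        ∀ X y : ℝ, 1 ≤ X → 1 ≤ y →
          ({x : ℤ | (∀ k : ℕ, y ≤ |((T^[k] x : ℤ) : ℝ)|) ∧
            0 < e * x ∧ ((e * x : ℤ) : ℝ) ≤ X}.ncard : ℝ) ≤ C * X / y ^ c) ∧
      (∀ (i j : ℕ) (b : ℤ) (s k : ℕ) (I : Finset ℤ), 1 ≤ s →
        (∀ r : ℤ, {n : ℤ | n ∈ I ∧ (2 : ℤ) ^ s ∣ n - r}.ncard ≤ k) →
          ({n : ℤ | n ∈ I ∧ ∀ t ≤ s, ¬ (T^[t] n = T^[t + i] (2 ^ i * 3 ^ j * n + b) ∧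
            o t n = o (t + i) (2 ^ i * 3 ^ j * n + b) + j)}.ncard : ℝ) ≤
              C * k * 2 ^ s * √((((i : ℝ) + j) ^ 2 + Real.log (2 + |(b : ℝ)|)) / s)) ∧
      (∀ (α : Type) (y : ℝ) (F : ℤ → α), 1 ≤ y → (∀ x : ℤ, y ≤ |(x : ℝ)| → F x = F (T x)) →
        ∀ (A : ℤ) (N : ℕ),
          (∀ (i j : ℕ) (b : ℤ),
            ({n : ℤ | A ≤ n ∧ n < A + N ∧ F n ≠ F (2 ^ i * 3 ^ j * n + b)}.ncard : ℝ) ≤
              C * N * √((((i : ℝ) + j) ^ 2 + Real.log (2 + |(b : ℝ)|)) / Real.log (2 + N / y))) ∧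
          ∀ (L : ℕ) (η : ℝ), 0 < η →
            ({n : ℤ | A ≤ n ∧ n < A + N ∧
              η * L < ({z : ℤ | F z ≠ F n ∧ n ≤ z ∧ z < n + L}.ncard : ℝ)}.ncard : ℝ) ≤
                C / η * N * √(Real.log (2 + L) / Real.log (2 + N / y))) ∧
      ∀ (i j m : ℕ) (a A : ℤ) (N s : ℕ), (j ≠ 0 ∨ m ≠ 0 ∨ a ≠ 0) → C ≤ s → 2 ^ s ≤ N →
        (∀ b ∈ Finset.Ico a (a + 2 ^ m), ((3 / 2 : ℝ) ^ i * |(b : ℝ)|) ^ 2 ≤ 2 ^ s) →
          c * N * min 1 √((1 + ((min i m : ℕ) + (j : ℝ)) ^ 2 + m) / s) * 2 ^ m ≤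
            ∑ b ∈ Finset.Ico a (a + 2 ^ m), ({n : ℤ | A ≤ n ∧ n < A + N ∧
              ∀ t ≤ s, T^[t] n ≠ T^[t + i] (2 ^ i * 3 ^ j * n + b)}.ncard : ℝ) := by
  obtain ⟨c1, C1, hc1, hC1, h1⟩ := Pool.Agent.Lib.MP_edb5be_nt.CO.densitiesU
  obtain ⟨C3, hC3, h3⟩ := Pool.Agent.Lib.MP_edb5be_nt.CO.lawSetH
  obtain ⟨C4, hC4, h4⟩ := Pool.Agent.Lib.MP_edb5be_nt.CO.funIvH
  obtain ⟨C2, hC2, h2⟩ := Pool.Agent.Lib.MP_edb5be_nt.CO.intIvH
  obtain ⟨c5, C5, hc5, hC5, h5⟩ := Pool.Agent.Lib.MP_edb5be_nt.CO.law_low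
  set C : ℝ := max C1 (max C2 (max C3 (max C4 C5))) with hCdef
  have k1 : C1 ≤ C := le_max_left _ _
  have k2 : C2 ≤ C := (le_max_left _ _).trans (le_max_right _ _)
  have k3 : C3 ≤ C := (le_max_left _ _).trans ((le_max_right _ _).trans (le_max_right _ _))
  have k4 : C4 ≤ C := (le_max_left _ _).trans
    ((le_max_right _ _).trans ((le_max_right _ _).trans (le_max_right _ _)))
  have k5 : (C5 : ℝ) ≤ C := (le_max_right _ _).trans
    ((le_max_right _ _).trans ((le_max_right _ _).trans (le_max_right _ _)))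
  have hC : 0 < C := hC1.trans_le k1
  refine ⟨min c1 c5, C, lt_min hc1 hc5, hC, ?_, ?_, ?_, ?_⟩
  · intro e he
    obtain ⟨p1, p2, p3⟩ := h1 e he
    refine ⟨?_, p2, ?_⟩
    · intro y S hy hS
      obtain ⟨D, hD, hX, hM⟩ := p1 y S hy hS
      refine ⟨D, hD, fun q a X hq hX2 => (hX q a X hq hX2).trans ?_, hM⟩
      have hlog : 0 < Real.log X := Real.log_pos (by linarith)
      refine mul_le_mul_of_nonneg_right k1 ?_
      have := Real.rpow_nonneg hlog.le (-(1 / 38) : ℝ)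
      positivity
    · intro X y hX hy
      refine (p3 X y hX hy).trans ?_
      have hy0 : 0 < y := by linarith
      have e1 : y ^ min c1 c5 ≤ y ^ c1 := Real.rpow_le_rpow_of_exponent_le hy (min_le_left _ _)
      have e2 : 0 < y ^ min c1 c5 := Real.rpow_pos_of_pos hy0 _
      exact div_le_div₀ (by positivity) (mul_le_mul_of_nonneg_right k1 (by linarith)) e2 e1
  · intro i j b s k I hs hI
    have h := h3 i j b s k I hs hI
    simp only [o_eq] at h
    refine h.trans ?_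
    refine mul_le_mul_of_nonneg_right (mul_le_mul_of_nonneg_right (mul_le_mul_of_nonneg_right k3
      (Nat.cast_nonneg k)) (by positivity)) (Real.sqrt_nonneg _)
  · intro α y F hy hF A N
    refine ⟨fun i j b => ?_, fun L η hη => ?_⟩
    · refine (h4 α y F hy hF i j b A N).trans ?_
      exact mul_le_mul_of_nonneg_right (mul_le_mul_of_nonneg_right k4 (Nat.cast_nonneg N))
        (Real.sqrt_nonneg _)
    · refine (h2 α y F hy hF η L N A hη).trans ?_
      exact mul_le_mul_of_nonneg_right (mul_le_mul_of_nonneg_right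
        (div_le_div_of_nonneg_right k2 hη.le) (Nat.cast_nonneg N)) (Real.sqrt_nonneg _)
  · intro i j m a A N s hne hs hN hb
    have hs' : C5 ≤ s := by exact_mod_cast k5.trans hs
    refine le_trans ?_ (h5 i j m a A N s hne hs' hN hb)
    refine mul_le_mul_of_nonneg_right (mul_le_mul_of_nonneg_right (mul_le_mul_of_nonneg_right
      (min_le_right _ _) (Nat.cast_nonneg N)) ?_) (by positivity)
    exact le_min zero_le_one (Real.sqrt_nonneg _)

end Pool.Agent.Results.MP_edb5be_nt.BasinsCoalesce
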