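import Mathlib
import Pool.Agent.Lib.MP_edb5be_nt.H26F.Few
import Pool.Agent.Lib.MP_edb5be_nt.H26W.Cyc

/-!
The 3x+1 map on the integers: `|p log 2 - k log 3|` is summable over all cycles, with explicit
bounds; unknown cycles in the positive integers have `{p log_3 2} < 0.238`.
-/

set_option autoImplicit false

namespace Pool.Agent.Results.MP_edb5be_nt.FewCycles

/-- The `3x+1` map on the integers: `x / 2` if `x` is even and `(3 x + 1) / 2` if `x` is odd. -/
def T (x : ℤ) : ℤ := if x % 2 = 0 then x / 2 else (3 * x + 1) / 2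

/-- `C` is a cycle of `T`: the orbit of some `x` with `T^p x = x`, `p ≥ 1`. -/
def IsCycle (C : Set ℤ) : Prop :=
  ∃ (x : ℤ) (p : ℕ), 0 < p ∧ T^[p] x = x ∧ C = {y : ℤ | ∃ j : ℕ, T^[j] x = y}

/-- The elements of the five known cycles. -/
def known : Set ℤ :=
  {0, 1, 2, -1, -5, -7, -10, -17, -25, -37, -55, -82, -41, -61, -91, -136, -68, -34}

/-- `|p log 2 - k log 3|`, where `p` is the number of elements and `k` the number of odd elements
of `C`. -/
noncomputable def defect (C : Set ℤ) : ℝ :=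
  |(C.ncard : ℝ) * Real.log 2 - ({x : ℤ | x ∈ C ∧ x % 2 = 1}.ncard : ℝ) * Real.log 3|

open Function Pool.Agent.Lib.MP_edb5be_nt

theorem cyc_eq {C : Set ℤ} (hC : IsCycle C) :
    ∃ x ∈ periodicPts T, C = ((H13.orb x : Finset ℤ) : Set ℤ) := by
  obtain ⟨x, p, hp, hx, rfl⟩ := hC
  have hper : x ∈ periodicPts T := ⟨p, hp, hx⟩
  refine ⟨x, hper, ?_⟩
  ext y
  rw [Finset.mem_coe, H13.mem_orb hper]
  rfl

theorem orb_eq_of_mem {x y : ℤ} (hx : x ∈ periodicPts T) (h : y ∈ H13.orb x) :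
    H13.orb y = H13.orb x := by
  have hy := H13.mem_orb_symm hx h
  ext z
  constructor
  · intro hz
    obtain ⟨j, rfl⟩ := (H13.mem_orb hy.1).1 hz
    obtain ⟨i, rfl⟩ := (H13.mem_orb hx).1 h
    exact (H13.mem_orb hx).2 ⟨j + i, iterate_add_apply _ _ _ _⟩
  · intro hz
    obtain ⟨j, rfl⟩ := (H13.mem_orb hx).1 hz
    obtain ⟨i, hi⟩ := (H13.mem_orb hy.1).1 hy.2
    refine (H13.mem_orb hy.1).2 ⟨j + i, ?_⟩
    rw [iterate_add_apply, hi]

theorem defect_eq {x : ℤ} : defect ((H13.orb x : Finset ℤ) : Set ℤ) = |H13.lam x| := by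
  classical
  have h1 : (((H13.orb x : Finset ℤ) : Set ℤ)).ncard = minimalPeriod T x := by
    rw [Set.ncard_coe_finset, H13.orb_card]
    rfl
  have h2 : {y : ℤ | y ∈ ((H13.orb x : Finset ℤ) : Set ℤ) ∧ y % 2 = 1}
      = (((H13.orb x).filter (fun y => y % 2 ≠ 0) : Finset ℤ) : Set ℤ) := by
    ext y
    simp only [Set.mem_setOf_eq, Finset.coe_filter, Finset.mem_coe]
    constructor
    · rintro ⟨h, h'⟩
      exact ⟨h, by omega⟩
    · rintro ⟨h, h'⟩
      exact ⟨h, by omega⟩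
  rw [defect, h1, h2, Set.ncard_coe_finset, H13.orb_odd_card]
  rfl

/-- representatives -/
noncomputable def rep (C : Set ℤ) : ℤ :=
  open Classical in if h : IsCycle C then (cyc_eq h).choose else 0

theorem rep_spec {C : Set ℤ} (hC : IsCycle C) :
    rep C ∈ periodicPts T ∧ C = ((H13.orb (rep C) : Finset ℤ) : Set ℤ) := by
  have h := (cyc_eq hC).choose_spec
  rw [rep, dif_pos hC]
  exact h

theorem rep_mem {C : Set ℤ} (hC : IsCycle C) : rep C ∈ C := by
  obtain ⟨h1, h2⟩ := rep_spec hC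
  have h3 : rep C ∈ ((H13.orb (rep C) : Finset ℤ) : Set ℤ) :=
    Finset.mem_coe.2 ((H13.mem_orb h1).2 ⟨0, rfl⟩)
  rw [← h2] at h3
  exact h3

theorem disj {F : Finset (Set ℤ)} (hF : ∀ C ∈ F, IsCycle C) :
    ((F : Set (Set ℤ))).PairwiseDisjoint (fun C => H13.orb (rep C)) := by
  intro C hC C' hC' hne
  rw [Function.onFun, Finset.disjoint_left]
  intro y hy hy'
  apply hne
  obtain ⟨h1, h2⟩ := rep_spec (hF C hC)
  obtain ⟨h1', h2'⟩ := rep_spec (hF C' hC')
  rw [h2, h2', ← orb_eq_of_mem h1 hy, ← orb_eq_of_mem h1' hy']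

theorem not_known {C : Set ℤ} (hC : IsCycle C) (hk : Disjoint C known) :
    rep C ∉ Dyn.known := by
  intro h
  refine Set.disjoint_left.1 hk (rep_mem hC) ?_
  have key : ∀ z ∈ Dyn.known, z ∈ ({0, 1, 2, -1, -5, -7, -10, -17, -25, -37, -55, -82, -41, -61,
    -91, -136, -68, -34} : Finset ℤ) := by decide
  have h2 := key _ h
  simp only [Finset.mem_insert, Finset.mem_singleton] at h2
  simpa only [known, Set.mem_insert_iff, Set.mem_singleton_iff] using h2

theorem sum_defect {F : Finset (Set ℤ)} (hF : ∀ C ∈ F, IsCycle C) :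
    ∑ C ∈ F, defect C = ∑ C ∈ F, |H13.lam (rep C)| := by
  refine Finset.sum_congr rfl fun C hC => ?_
  rw [← defect_eq, ← (rep_spec (hF C hC)).2]

theorem mem_rep {C : Set ℤ} (hC : IsCycle C) {z : ℤ} : z ∈ H13.orb (rep C) ↔ z ∈ C := by
  conv_rhs => rw [(rep_spec hC).2]
  exact Finset.mem_coe.symm

theorem lam_rep {C : Set ℤ} (hC : IsCycle C) : H13.lam (rep C) = (C.ncard : ℝ) * Real.log 2 -
    ({x : ℤ | x ∈ C ∧ x % 2 = 1}.ncard : ℝ) * Real.log 3 := by
  classical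
  obtain ⟨-, h2⟩ := rep_spec hC
  have h3 : C.ncard = minimalPeriod T (rep C) := by
    conv_lhs => rw [h2]
    rw [Set.ncard_coe_finset, H13.orb_card]
    rfl
  have h4 : {x : ℤ | x ∈ C ∧ x % 2 = 1}
      = (((H13.orb (rep C)).filter (fun y => y % 2 ≠ 0) : Finset ℤ) : Set ℤ) := by
    ext y
    simp only [Set.mem_setOf_eq, Finset.coe_filter, mem_rep hC]
    constructor
    · rintro ⟨h, h'⟩
      exact ⟨h, by omega⟩
    · rintro ⟨h, h'⟩
      exact ⟨h, by omega⟩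
  rw [h3, h4, Set.ncard_coe_finset, H13.orb_odd_card]
  rfl

theorem ncard_pos' {C : Set ℤ} (hC : IsCycle C) : 0 < C.ncard := by
  obtain ⟨h1, h2⟩ := rep_spec hC
  rw [h2, Set.ncard_coe_finset, Finset.card_pos]
  exact ⟨rep C, (mem_rep hC).2 (rep_mem hC)⟩

/-- Sum of the defects of unknown cycles of one sign. -/
theorem sum_24 {F : Finset (Set ℤ)} (hF : ∀ C ∈ F, IsCycle C ∧ Disjoint C known)
    (hsign : (∀ C ∈ F, ∀ x ∈ C, 0 < x) ∨ (∀ C ∈ F, ∀ x ∈ C, x < 0)) :
    ∑ C ∈ F, defect C ≤ 0.261 := by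
  have hc : ∀ C ∈ F, IsCycle C := fun C hC => (hF C hC).1
  rw [sum_defect hc]
  have h := H26T.family_24 F rep
    (fun C hC => ⟨(rep_spec (hc C hC)).1, not_known (hc C hC) (hF C hC).2⟩) (disj hc)
    (by
      rcases hsign with h | h
      · exact Or.inl fun C hC => h C hC _ (rep_mem (hc C hC))
      · exact Or.inr fun C hC => h C hC _ (rep_mem (hc C hC)))
  norm_num at h ⊢
  exact h

/-- Sum of the defects of cycles of one sign that avoid `(-2^71, 2^71)`. -/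
theorem sum_71 {F : Finset (Set ℤ)} (hF : ∀ C ∈ F, IsCycle C ∧ ∀ x ∈ C, 2 ^ 71 ≤ |x|)
    (hsign : (∀ C ∈ F, ∀ x ∈ C, 0 < x) ∨ (∀ C ∈ F, ∀ x ∈ C, x < 0)) :
    ∑ C ∈ F, defect C ≤ 0.029 := by
  have hc : ∀ C ∈ F, IsCycle C := fun C hC => (hF C hC).1
  rw [sum_defect hc]
  have key : ∀ z ∈ Dyn.known, |z| < 2 ^ 71 := by decide
  have h := H26T.family_71 F rep
    (fun C hC => ⟨(rep_spec (hc C hC)).1, fun hk => by
      have h1 := key _ hk
      have h2 := (hF C hC).2 _ (rep_mem (hc C hC))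
      omega⟩) (disj hc)
    (by
      rcases hsign with h | h
      · exact Or.inl fun C hC => h C hC _ (rep_mem (hc C hC))
      · exact Or.inr fun C hC => h C hC _ (rep_mem (hc C hC)))
    (fun C hC y hy => (hF C hC).2 y ((mem_rep (hc C hC)).1 hy))
  norm_num at h ⊢
  exact h

theorem fract_of_pos {C : Set ℤ} (hC : IsCycle C) (hpos : ∀ x ∈ C, 0 < x) {b : ℝ} (hb : b ≤ 1 / 2)
    (h : defect C ≤ b) : Int.fract ((C.ncard : ℝ) * Real.logb 3 2) ≤ b / 1.0985 := by
  have h1 := H26T.lam_pos (hpos _ (rep_mem hC))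
  rw [lam_rep hC] at h1
  refine H26T.fract_pos hb h1 ?_
  rw [defect, abs_of_nonneg h1] at h
  exact h

theorem fract_of_neg {C : Set ℤ} (hC : IsCycle C) (hneg : ∀ x ∈ C, x < 0) {b : ℝ} (hb : b ≤ 1 / 2)
    (h : defect C ≤ b) : 1 - b / 1.0985 ≤ Int.fract ((C.ncard : ℝ) * Real.logb 3 2) := by
  have h1 := H26T.lam_neg (hneg _ (rep_mem hC))
  rw [lam_rep hC] at h1
  refine H26T.fract_neg (ncard_pos' hC) hb h1 ?_
  rw [defect, abs_of_nonpos h1] at h
  linarith

/-- Sum of the defects of unknown cycles of one sign that avoid `(-y, y)`. -/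
theorem sum_tail {F : Finset (Set ℤ)} (hF : ∀ C ∈ F, IsCycle C ∧ Disjoint C known)
    (hsign : (∀ C ∈ F, ∀ x ∈ C, 0 < x) ∨ (∀ C ∈ F, ∀ x ∈ C, x < 0)) {y : ℝ} (hy : 1 ≤ y)
    (hbig : ∀ C ∈ F, ∀ x ∈ C, y ≤ |(x : ℝ)|) :
    ∑ C ∈ F, defect C ≤ 0.81 * y ^ (-(0.048 : ℝ)) := by
  have hc : ∀ C ∈ F, IsCycle C := fun C hC => (hF C hC).1
  rw [sum_defect hc, show (-(0.048 : ℝ)) = -0.048 by norm_num]
  exact H26W.family_tail F rep
    (fun C hC => ⟨(rep_spec (hc C hC)).1, not_known (hc C hC) (hF C hC).2⟩) (disj hc)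
    (by
      rcases hsign with h | h
      · exact Or.inl fun C hC => h C hC _ (rep_mem (hc C hC))
      · exact Or.inr fun C hC => h C hC _ (rep_mem (hc C hC))) y hy
    (fun C hC z hz => hbig C hC z ((mem_rep (hc C hC)).1 hz))

theorem sign_of {C : Set ℤ} (hC : IsCycle C) (hk : Disjoint C known) :
    (∀ x ∈ C, 0 < x) ∨ (∀ x ∈ C, x < 0) := by
  have h0 : rep C ≠ 0 := by
    intro h
    refine not_known hC hk ?_
    rw [h]
    decide
  obtain ⟨h1, h2⟩ := rep_spec hC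
  rcases lt_or_gt_of_ne h0 with h | h
  · right
    intro x hx
    obtain ⟨j, rfl⟩ := (H13.mem_orb h1).1 ((mem_rep hC).2 hx)
    exact H13.iterate_neg' h j
  · left
    intro x hx
    obtain ⟨j, rfl⟩ := (H13.mem_orb h1).1 ((mem_rep hC).2 hx)
    exact H13.iterate_pos' h j

theorem defect_nonneg (C : Set ℤ) : 0 ≤ defect C := abs_nonneg _

theorem defect_le {C : Set ℤ} (hC : IsCycle C) (hk : Disjoint C known) : defect C ≤ 0.261 := by
  have h1 := sum_24 (F := {C}) (fun D hD => by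
    rw [Finset.mem_singleton.1 hD]; exact ⟨hC, hk⟩) (by
    rcases sign_of hC hk with h | h
    · exact Or.inl fun D hD => by rw [Finset.mem_singleton.1 hD]; exact h
    · exact Or.inr fun D hD => by rw [Finset.mem_singleton.1 hD]; exact h)
  rwa [Finset.sum_singleton] at h1

/-- An explicit bound for an element of an unknown cycle with a given defect. -/
theorem small_elt {C : Set ℤ} (hC : IsCycle C) (hk : Disjoint C known) {ε : ℝ} (hε : 0 < ε)
    (h : ε ≤ defect C) : ∃ x ∈ C, |(x : ℝ)| ≤ (0.81 / ε) ^ 21 := by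
  obtain ⟨x, hx, hmin⟩ := (H13.orb (rep C)).exists_min_image (fun z => |(z : ℝ)|)
    ⟨rep C, (mem_rep hC).2 (rep_mem hC)⟩
  have hxC := (mem_rep hC).1 hx
  refine ⟨x, hxC, ?_⟩
  have hx1 : (1 : ℝ) ≤ |(x : ℝ)| := by
    have h0 : x ≠ 0 := by
      rcases sign_of hC hk with h | h
      · exact (h x hxC).ne'
      · exact (h x hxC).ne
    have h1 : (1 : ℤ) ≤ |x| := Int.one_le_abs h0
    exact_mod_cast h1
  have h1 := sum_tail (F := {C}) (fun D hD => by
    rw [Finset.mem_singleton.1 hD]; exact ⟨hC, hk⟩) (by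
    rcases sign_of hC hk with h | h
    · exact Or.inl fun D hD => by rw [Finset.mem_singleton.1 hD]; exact h
    · exact Or.inr fun D hD => by rw [Finset.mem_singleton.1 hD]; exact h) hx1
    (fun D hD z hz => by
      rw [Finset.mem_singleton.1 hD] at hz
      exact hmin z ((mem_rep hC).2 hz))
  rw [Finset.sum_singleton] at h1
  set Y : ℝ := |(x : ℝ)| with hY
  have hY0 : 0 < Y := by linarith
  have h2 : ε ≤ 0.81 * Y ^ (-(0.048 : ℝ)) := h.trans h1
  rw [Real.rpow_neg hY0.le] at h2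
  have hp : 0 < Y ^ (0.048 : ℝ) := Real.rpow_pos_of_pos hY0 _
  have h3 : Y ^ (0.048 : ℝ) ≤ 0.81 / ε := by
    rw [le_div_iff₀ hε]
    rw [← div_eq_mul_inv, le_div_iff₀ hp] at h2
    linarith
  have h4 : 1 ≤ Y ^ (0.048 : ℝ) := Real.one_le_rpow hx1 (by norm_num)
  calc Y ≤ Y ^ (1.008 : ℝ) := by
        conv_lhs => rw [← Real.rpow_one Y]
        exact Real.rpow_le_rpow_of_exponent_le hx1 (by norm_num)
    _ = (Y ^ (0.048 : ℝ)) ^ 21 := by
        rw [← Real.rpow_natCast, ← Real.rpow_mul hY0.le]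
        norm_num
    _ ≤ (0.81 / ε) ^ 21 := pow_le_pow_left₀ hp.le h3 21

/-- The number of unknown cycles with defect at least `ε`. -/
theorem count_le {ε : ℝ} (hε : 0 < ε) (F : Finset (Set ℤ))
    (hF : ∀ C ∈ F, IsCycle C ∧ Disjoint C known ∧ ε ≤ defect C) : (F.card : ℝ) ≤ 0.522 / ε := by
  classical
  have h1 := sum_24 (F := F.filter (fun C => ∀ x ∈ C, 0 < x)) (fun C hC => by
    obtain ⟨a, b, -⟩ := hF C (Finset.mem_filter.1 hC).1
    exact ⟨a, b⟩) (Or.inl fun C hC => (Finset.mem_filter.1 hC).2)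
  have h2 := sum_24 (F := F.filter (fun C => ¬ ∀ x ∈ C, 0 < x)) (fun C hC => by
    obtain ⟨a, b, -⟩ := hF C (Finset.mem_filter.1 hC).1
    exact ⟨a, b⟩) (Or.inr fun C hC => by
      obtain ⟨h3, h4⟩ := Finset.mem_filter.1 hC
      obtain ⟨a, b, -⟩ := hF C h3
      rcases sign_of a b with h | h
      · exact absurd h h4
      · exact h)
  have h3 := Finset.sum_filter_add_sum_filter_not F (fun C => ∀ x ∈ C, 0 < x) defect
  have h4 : (F.card : ℝ) * ε ≤ ∑ C ∈ F, defect C := by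
    rw [← nsmul_eq_mul]
    exact Finset.card_nsmul_le_sum F defect ε fun C hC => (hF C hC).2.2
  rw [le_div_iff₀ hε]
  linarith

theorem lengths_pos {b : ℝ} (F : Finset (Set ℤ)) (p : ℕ)
    (hF : ∀ C ∈ F, IsCycle C ∧ Disjoint C known ∧ C.ncard = p ∧ ∀ x ∈ C, 0 < x)
    (hb : ∑ C ∈ F, defect C ≤ b) :
    (F.card : ℝ) * Int.fract ((p : ℝ) * Real.logb 3 2) ≤ b / 1.0985 := by
  have h1 : ∀ C ∈ F, Int.fract ((p : ℝ) * Real.logb 3 2) ≤ defect C / 1.0985 := by
    intro C hC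
    obtain ⟨h2, h3, h4, h5⟩ := hF C hC
    rw [← h4]
    exact fract_of_pos h2 h5 ((defect_le h2 h3).trans (by norm_num)) le_rfl
  have h2 := Finset.sum_le_sum h1
  rw [Finset.sum_const, nsmul_eq_mul, ← Finset.sum_div] at h2
  refine h2.trans ?_
  gcongr

theorem lengths_neg {b : ℝ} (F : Finset (Set ℤ)) (p : ℕ)
    (hF : ∀ C ∈ F, IsCycle C ∧ Disjoint C known ∧ C.ncard = p ∧ ∀ x ∈ C, x < 0)
    (hb : ∑ C ∈ F, defect C ≤ b) :
    (F.card : ℝ) * (1 - Int.fract ((p : ℝ) * Real.logb 3 2)) ≤ b / 1.0985 := by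
  have h1 : ∀ C ∈ F, 1 - Int.fract ((p : ℝ) * Real.logb 3 2) ≤ defect C / 1.0985 := by
    intro C hC
    obtain ⟨h2, h3, h4, h5⟩ := hF C hC
    rw [← h4]
    have := fract_of_neg h2 h5 ((defect_le h2 h3).trans (by norm_num)) le_rfl
    linarith
  have h2 := Finset.sum_le_sum h1
  rw [Finset.sum_const, nsmul_eq_mul, ← Finset.sum_div] at h2
  refine h2.trans ?_
  gcongr

/-- Write `p` for the number of elements and `k` for the number of odd elements of a cycle, and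
`d = |p log 2 - k log 3|`. An unknown cycle is one that contains none of the elements of the five
known cycles.
(i) For every `ε > 0` only finitely many cycles have `d ≥ ε`; at most `0.522 / ε` of them are
unknown, and every unknown one contains an `x` with `|x| ≤ (0.81 / ε) ^ 21`.
(ii) For every finite family of unknown cycles in the positive (or in the negative) integers the
sum of the `d` is at most `0.261`, at most `0.029` if all elements are of absolute value at least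
`2^71`, and at most `0.81 y ^ (-0.048)` if all elements are of absolute value at least `y ≥ 1`.
(iii) `N` different unknown cycles with `p` elements each satisfy `N {p log_3 2} < 0.238` if they
are in the positive integers and `N (1 - {p log_3 2}) < 0.238` if they are in the negative
integers, with `0.0265` instead of `0.238` if all elements are of absolute value at least `2^71`.
(iv) For a finite family of cycles that avoid `(-y, y)` the sum of the `d` is at most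
`K y ^ (-0.059)`. (v) At most `9 P ^ (17 / 19)` of the integers `p ≤ P` are numbers of elements of
cycles. -/
theorem result :
    (∀ ε : ℝ, 0 < ε → {C : Set ℤ | IsCycle C ∧ ε ≤ defect C}.Finite ∧
      ({C : Set ℤ | IsCycle C ∧ Disjoint C known ∧ ε ≤ defect C}.ncard : ℝ) ≤ 0.522 / ε ∧
      ∀ C : Set ℤ, IsCycle C → Disjoint C known → ε ≤ defect C →
        ∃ x ∈ C, |(x : ℝ)| ≤ (0.81 / ε) ^ 21) ∧
    (∀ F : Finset (Set ℤ), (∀ C ∈ F, IsCycle C ∧ Disjoint C known) →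
      ((∀ C ∈ F, ∀ x ∈ C, 0 < x) ∨ (∀ C ∈ F, ∀ x ∈ C, x < 0)) →
      ∑ C ∈ F, defect C ≤ 0.261 ∧
      ((∀ C ∈ F, ∀ x ∈ C, 2 ^ 71 ≤ |x|) → ∑ C ∈ F, defect C ≤ 0.029) ∧
      ∀ y : ℝ, 1 ≤ y → (∀ C ∈ F, ∀ x ∈ C, y ≤ |(x : ℝ)|) →
        ∑ C ∈ F, defect C ≤ 0.81 * y ^ (-(0.048 : ℝ))) ∧
    (∀ (p : ℕ) (F : Finset (Set ℤ)), (∀ C ∈ F, IsCycle C ∧ Disjoint C known ∧ C.ncard = p) →
      ((∀ C ∈ F, ∀ x ∈ C, 0 < x) →
        (F.card : ℝ) * Int.fract ((p : ℝ) * Real.logb 3 2) < 0.238) ∧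
      ((∀ C ∈ F, ∀ x ∈ C, x < 0) →
        (F.card : ℝ) * (1 - Int.fract ((p : ℝ) * Real.logb 3 2)) < 0.238) ∧
      ((∀ C ∈ F, ∀ x ∈ C, 2 ^ 71 ≤ x) →
        (F.card : ℝ) * Int.fract ((p : ℝ) * Real.logb 3 2) < 0.0265) ∧
      ((∀ C ∈ F, ∀ x ∈ C, x ≤ -2 ^ 71) →
        (F.card : ℝ) * (1 - Int.fract ((p : ℝ) * Real.logb 3 2)) < 0.0265)) ∧
    (∃ K : ℝ, ∀ y : ℝ, 1 ≤ y → ∀ F : Finset (Set ℤ),
      (∀ C ∈ F, IsCycle C ∧ ∀ x ∈ C, y ≤ |(x : ℝ)|) →
      ∑ C ∈ F, defect C ≤ K * y ^ (-(0.059 : ℝ))) ∧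
    (∀ P : ℕ, 1 ≤ P → ({p : ℕ | p ≤ P ∧ ∃ C : Set ℤ, IsCycle C ∧ C.ncard = p}.ncard : ℝ)
      ≤ 9 * (P : ℝ) ^ ((17 : ℝ) / 19)) := by
  classical
  refine ⟨?_, ?_, ?_, ?_, ?_⟩
  · intro ε hε
    have hfin := H13.finite_lam ε hε
    have h1 : ({C : Set ℤ | IsCycle C ∧ ε ≤ defect C}) ⊆
        (fun x : ℤ => ((H13.orb x : Finset ℤ) : Set ℤ)) ''
          (insert 0 {x : ℤ | x ∈ periodicPts T ∧ x ≠ 0 ∧ ε ≤ |H13.lam x|}) := by
      rintro C ⟨hC, hd⟩
      obtain ⟨h2, h3⟩ := rep_spec hC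
      refine ⟨rep C, ?_, h3.symm⟩
      by_cases h0 : rep C = 0
      · exact Or.inl h0
      · refine Or.inr ⟨h2, h0, ?_⟩
        rw [← defect_eq, ← h3]
        exact hd
    have h2 : {C : Set ℤ | IsCycle C ∧ ε ≤ defect C}.Finite :=
      (((hfin.insert 0).image _)).subset h1
    refine ⟨h2, ?_, fun C hC hk hd => small_elt hC hk hε hd⟩
    have h3 : {C : Set ℤ | IsCycle C ∧ Disjoint C known ∧ ε ≤ defect C}.Finite :=
      h2.subset fun C hC => ⟨hC.1, hC.2.2⟩
    rw [Set.ncard_eq_toFinset_card _ h3]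
    exact count_le hε _ fun C hC => (h3.mem_toFinset).1 hC
  · intro F hF hsign
    exact ⟨sum_24 hF hsign, fun hbig => sum_71 (fun C hC => ⟨(hF C hC).1, hbig C hC⟩) hsign,
      fun y hy hbig => sum_tail hF hsign hy hbig⟩
  · intro p F hF
    have h71 : ((∀ C ∈ F, ∀ x ∈ C, 2 ^ 71 ≤ x) ∨ (∀ C ∈ F, ∀ x ∈ C, x ≤ -2 ^ 71)) →
        ∑ C ∈ F, defect C ≤ 0.029 := by
      intro h
      refine sum_71 (fun C hC => ⟨(hF C hC).1, fun x hx => ?_⟩) ?_
      · rcases h with h | h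
        · exact (h C hC x hx).trans (le_abs_self x)
        · have := h C hC x hx
          exact le_trans (by omega) (neg_le_abs x)
      · rcases h with h | h
        · exact Or.inl fun C hC x hx => by
            have := h C hC x hx
            omega
        · exact Or.inr fun C hC x hx => by
            have := h C hC x hx
            omega
    refine ⟨fun h => ?_, fun h => ?_, fun h => ?_, fun h => ?_⟩
    · refine lt_of_le_of_lt (lengths_pos F p (fun C hC => ⟨(hF C hC).1, (hF C hC).2.1,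
        (hF C hC).2.2, h C hC⟩) (sum_24 (fun C hC => ⟨(hF C hC).1, (hF C hC).2.1⟩)
        (Or.inl h))) ?_
      norm_num
    · refine lt_of_le_of_lt (lengths_neg F p (fun C hC => ⟨(hF C hC).1, (hF C hC).2.1,
        (hF C hC).2.2, h C hC⟩) (sum_24 (fun C hC => ⟨(hF C hC).1, (hF C hC).2.1⟩)
        (Or.inr h))) ?_
      norm_num
    · refine lt_of_le_of_lt (lengths_pos F p (fun C hC => ⟨(hF C hC).1, (hF C hC).2.1,
        (hF C hC).2.2, fun x hx => by have := h C hC x hx; omega⟩) (h71 (Or.inl h))) ?_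
      norm_num
    · refine lt_of_le_of_lt (lengths_neg F p (fun C hC => ⟨(hF C hC).1, (hF C hC).2.1,
        (hF C hC).2.2, fun x hx => by have := h C hC x hx; omega⟩) (h71 (Or.inr h))) ?_
      norm_num
  · obtain ⟨K, hK0, hK⟩ := H26F.sum_lam_tail (ι := Set ℤ)
    refine ⟨K, fun y hy F hF => ?_⟩
    have hc : ∀ C ∈ F, IsCycle C := fun C hC => (hF C hC).1
    rw [sum_defect hc]
    refine hK y hy F rep (fun C hC => ⟨(rep_spec (hc C hC)).1, fun z hz => ?_⟩) (disj hc)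
    refine (hF C hC).2 z ?_
    rw [(rep_spec (hc C hC)).2]
    exact hz
  · intro P hP
    have hfin : {p : ℕ | p ≤ P ∧ ∃ C : Set ℤ, IsCycle C ∧ C.ncard = p}.Finite :=
      (Set.finite_Iic P).subset fun p hp => hp.1
    rw [Set.ncard_eq_toFinset_card _ hfin]
    refine H13.card_lengths_le_explicit P _ hP fun p hp => ?_
    rw [Set.Finite.mem_toFinset] at hp
    obtain ⟨h1, C, hC, rfl⟩ := hp
    obtain ⟨h2, h3⟩ := rep_spec hC
    have h4 : C.ncard = minimalPeriod T (rep C) := by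
      rw [h3, Set.ncard_coe_finset, H13.orb_card, ← h3]
      rfl
    refine ⟨⟨?_, rep C, h4.symm⟩, h1⟩
    rw [h4]
    exact minimalPeriod_pos_of_mem_periodicPts h2

end Pool.Agent.Results.MP_edb5be_nt.FewCycles
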