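import Pool.Agent.Lib.MP_edb5be_nt.PD.H26.Asm
import Pool.Agent.Lib.MP_edb5be_nt.PD.H26.Cyc
import Pool.Agent.Lib.MP_edb5be_nt.CO.Loc

/-!
The 3x+1 map on the integers: every integer prime to 3 is in the trajectory of a positive
proportion of all integers of its sign.
-/

set_option autoImplicit false

namespace Pool.Agent.Results.MP_edb5be_nt.PositiveDensity

/-- The 3x+1 map on the integers: `x / 2` for even `x` and `(3 x + 1) / 2` for odd `x`. -/
def T (x : ℤ) : ℤ := if x % 2 = 0 then x / 2 else (3 * x + 1) / 2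

/-- The number of the `x ∈ S` with `0 < x ≤ X` (for `e = 1`) or `0 < -x ≤ X` (for `e = -1`). -/
noncomputable def count (e : ℤ) (S : Set ℤ) (X : ℝ) : ℝ :=
  ({x : ℤ | x ∈ S ∧ 0 < e * x ∧ ((e * x : ℤ) : ℝ) ≤ X}.ncard : ℝ)

/-- `S` has the natural density `D` in the positive (`e = 1`) or negative (`e = -1`) integers. -/
def HasDensity (e : ℤ) (S : Set ℤ) (D : ℝ) : Prop :=
  Filter.Tendsto (fun X : ℝ => count e S X / X) Filter.atTop (nhds D)

/-- The elements of the five known cycles. -/
def known : Set ℤ :=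
  {0, 1, 2, -1, -5, -7, -10, -17, -25, -37, -55, -82, -41, -61, -91, -136, -68, -34}

open Pool.Agent.Lib.MP_0a5adf_nt.TP Pool.Agent.Lib.MP_edb5be_nt

theorem T_eq : T = EX.Tc := rfl

theorem count_eq (d : Bool) : count (sg d) = ND.cnt d := rfl

theorem hasDensity_eq (d : Bool) : HasDensity (sg d) = ND.HasDens d := rfl

theorem sign (e : ℤ) (he : e = 1 ∨ e = -1) : ∃ d : Bool, e = sg d := by
  rcases he with rfl | rfl
  · exact ⟨true, rfl⟩
  · exact ⟨false, rfl⟩

/-- There are `c, K > 0` such that, for both signs `e`: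
(a) for every `x` prime to 3 of sign `e` the integers whose trajectory contains `x` have a natural
density `≥ c / |x|`, and for every `X ≥ |x|` at least `c X / |x|` of those up to `X` reach `x` in at
most `K (log (X / |x|) + 1)` steps;
(b) every `T`-invariant set that contains an `x` of sign `e` has a natural density which is at least
`c` times the sum of the `1 / |y|` over any finite set of terms `y` of the trajectory of `x` (so
`≥ c / |x|`), and, if `x` is in a cycle with `p` elements, `k` of them odd, also at least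
`c |p log 2 - k log 3|` (if `x` is not periodic, then `p = k = 0` and this clause says nothing).
(c) The only cycles are the five known ones if and only if, for both signs, there is `η > 0` such
that for every `ε > 0` there are arbitrarily large `X` and an `L` with `1 ≤ L ≤ X ^ ε` such that for
all but at most `ε X` of the `x` up to `X` at least `η L` of the integers in `[x, x + L)` have a
trajectory that does not enter another cycle. -/
theorem result :
    (∃ c K : ℝ, 0 < c ∧ 0 < K ∧ ∀ e : ℤ, e = 1 ∨ e = -1 →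
      (∀ x : ℤ, 0 < e * x → ¬ (3 : ℤ) ∣ x →
        (∃ D : ℝ, c / |(x : ℝ)| ≤ D ∧ HasDensity e {n : ℤ | ∃ k : ℕ, T^[k] n = x} D) ∧
        ∀ X : ℝ, |(x : ℝ)| ≤ X → c * (X / |(x : ℝ)|) ≤
          count e {n : ℤ | ∃ k : ℕ, (k : ℝ) ≤ K * (Real.log (X / |(x : ℝ)|) + 1) ∧
            T^[k] n = x} X) ∧
      ∀ (S : Set ℤ) (x : ℤ), (∀ n : ℤ, n ∈ S ↔ T n ∈ S) → x ∈ S → 0 < e * x →
        ∃ D : ℝ, HasDensity e S D ∧
          (∀ A : Finset ℤ, (∀ y ∈ A, ∃ i : ℕ, T^[i] x = y) → c * ∑ y ∈ A, 1 / |(y : ℝ)| ≤ D) ∧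
          ∀ p k : ℕ, p = Function.minimalPeriod T x →
            k = ((Finset.range p).filter fun j => T^[j] x % 2 = 1).card →
            c * |(p : ℝ) * Real.log 2 - (k : ℝ) * Real.log 3| ≤ D) ∧
    ((∀ x ∈ Function.periodicPts T, x ∈ known) ↔ ∀ e : ℤ, e = 1 ∨ e = -1 →
      ∃ η : ℝ, 0 < η ∧ ∀ ε : ℝ, 0 < ε → ∀ X₀ : ℝ, ∃ X : ℝ, ∃ L : ℕ, X₀ ≤ X ∧ 1 ≤ L ∧
        (L : ℝ) ≤ X ^ ε ∧
        count e {x : ℤ | ({z : ℤ | (¬ ∃ k : ℕ, T^[k] z ∈ Function.periodicPts T \ known) ∧
          x ≤ z ∧ z < x + L}.ncard : ℝ) < η * L} X ≤ ε * X) := by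
  have hF : PD.H26.FinalStatement := PD.finalT
  constructor
  · obtain ⟨c₁, K, hc₁, hK, H⟩ := hF
    obtain ⟨c₂, hc₂, H₂⟩ := PD.H26.traj PD.finalT
    have hc : 0 < min c₁ c₂ := lt_min hc₁ hc₂
    refine ⟨min c₁ c₂, K, hc, hK, fun e he => ?_⟩
    obtain ⟨d, rfl⟩ := sign e he
    refine ⟨fun x hx h3 => ⟨?_, fun X hX => ?_⟩, fun S x hS hxS hx => ?_⟩
    · obtain ⟨D, hD1, hD2⟩ := ((H d).1 x hx h3).1
      exact ⟨D, (div_le_div_of_nonneg_right (min_le_left _ _) (abs_nonneg _)).trans hD1, hD2⟩
    · refine le_trans (mul_le_mul_of_nonneg_right (min_le_left _ _) ?_) (((H d).1 x hx h3).2 X hX)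
      exact div_nonneg ((abs_nonneg _).trans hX) (abs_nonneg _)
    · obtain ⟨D, hD, hD2, hD3⟩ := H₂ d S x hS hxS hx
      refine ⟨D, hD, fun A hA => ?_, ?_⟩
      · refine le_trans (mul_le_mul_of_nonneg_right (min_le_right _ _) ?_) (hD2 A hA)
        exact Finset.sum_nonneg fun _ _ => by positivity
      · rintro p k rfl hk
        refine le_trans (mul_le_mul_of_nonneg_right (min_le_right _ _) (abs_nonneg _)) ?_
        have e1 : k = (H13.par (Function.minimalPeriod H13.T x) x).card := by
          rw [hk]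
          exact PD.H26.card_par x
        rw [e1]
        exact hD3
  · have h0 : (0 : ℤ) ∈ known := Or.inl rfl
    constructor
    · intro h e _
      have hU : {n : ℤ | ∃ k : ℕ, T^[k] n ∈ Function.periodicPts T \ known} = ∅ := by
        rw [Set.eq_empty_iff_forall_notMem]
        rintro n ⟨k, hk1, hk2⟩
        exact hk2 (h _ hk1)
      have h1 := CO.loc_empty e
      rw [← hU] at h1
      exact h1
    · intro h
      rw [show Function.periodicPts T = Function.periodicPts EX.Tc from rfl,
        PD.H26.equiv hF known h0]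
      intro d
      have he : sg d = 1 ∨ sg d = -1 := by cases d <;> simp [sg]
      refine CO.loc_zero CO.intYH (sg d) he
        {n : ℤ | ∃ k : ℕ, T^[k] n ∈ Function.periodicPts T \ known} (fun n => ?_) (h (sg d) he)
      constructor
      · rintro ⟨k, ⟨p, hp, hpx⟩, hk2⟩
        -- go round the cycle once more
        refine ⟨k + p - 1, ?_⟩
        have h1 : T^[k + p - 1] (T n) = T^[k] n := by
          rw [← Function.iterate_succ_apply, show (k + p - 1).succ = p + k by omega,
            Function.iterate_add_apply]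
          exact hpx
        have h2 : T^[k + p - 1] (T n) ∈ Function.periodicPts T \ known := by
          rw [h1]
          exact ⟨⟨p, hp, hpx⟩, hk2⟩
        exact h2
      · rintro ⟨k, hk⟩
        exact ⟨k + 1, hk⟩

end Pool.Agent.Results.MP_edb5be_nt.PositiveDensity
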