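import Pool.Agent.Lib.MP_edb5be_nt.TS.H58.All3

/-!
The 3x+1 map on the integers: the law of the trajectories and of the total stopping times.
-/

set_option autoImplicit false

namespace Pool.Agent.Results.MP_edb5be_nt.StoppingTimeLaw

/-- The 3x+1 map on the integers: `x / 2` for even `x` and `(3 x + 1) / 2` for odd `x`. -/
def T (x : ℤ) : ℤ := if x % 2 = 0 then x / 2 else (3 * x + 1) / 2

/-- The number of the `x ∈ S` with `0 < x ≤ X` (for `e = 1`) or `0 < -x ≤ X` (for `e = -1`). -/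
noncomputable def count (e : ℤ) (S : Set ℤ) (X : ℝ) : ℝ :=
  ({x : ℤ | x ∈ S ∧ 0 < e * x ∧ ((e * x : ℤ) : ℝ) ≤ X}.ncard : ℝ)

/-- `S` has the natural density `D` in the positive (`e = 1`) or negative (`e = -1`) integers. -/
def HasDensity (e : ℤ) (S : Set ℤ) (D : ℝ) : Prop :=
  Filter.Tendsto (fun X : ℝ => count e S X / X) Filter.atTop (nhds D)

/-- The height `log |x|`. -/
noncomputable def ht (x : ℤ) : ℝ := Real.log |(x : ℝ)|

/-- `log (4 / 3) / 2 = 0.1438...`. -/
noncomputable def mu : ℝ := Real.log (4 / 3) / 2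

/-- `b = log 3 / (2 * mu ^ (3 / 2)) = 10.07...`. -/
noncomputable def b : ℝ := Real.log 3 / (2 * mu * √mu)

/-- The distribution function of the normal law. -/
noncomputable def Phi (z : ℝ) : ℝ :=
  (√(2 * Real.pi))⁻¹ * ∫ x in Set.Iic z, Real.exp (-x ^ 2 / 2)

/-- `t` is the time of the first visit of the trajectory of `x` to `W`. -/
def First (W : Set ℤ) (x : ℤ) (t : ℕ) : Prop := T^[t] x ∈ W ∧ ∀ i < t, T^[i] x ∉ W

/-- With `L = ht x` and the times `k i = ⌊s i * L⌋`, `i ≤ r`: for each `i < r` the height of the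
trajectory of `x` changes between the times `k i` and `k (i + 1)` by at most
`-mu * (s (i + 1) - s i) * L + z i * (log 3 / 2) * √((s (i + 1) - s i) * L)`; and `P t` holds for a
time `t` with `t ≤ k r + (height at the time k r) / mu + z r * b * √((1 - mu * s r) * L)`. -/
def Path (P : ℕ → Prop) (r : ℕ) (s z : ℕ → ℝ) (x : ℤ) : Prop :=
  (∀ i < r, ht (T^[⌊s (i + 1) * ht x⌋₊] x) - ht (T^[⌊s i * ht x⌋₊] x) +
      mu * (s (i + 1) - s i) * ht x ≤ z i * (Real.log 3 / 2) * √((s (i + 1) - s i) * ht x)) ∧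
    ∃ t : ℕ, (t : ℝ) ≤ ⌊s r * ht x⌋₊ + ht (T^[⌊s r * ht x⌋₊] x) / mu +
      z r * b * √((1 - mu * s r) * ht x) ∧ P t

open Pool.Agent.Lib.MP_0a5adf_nt.TP Pool.Agent.Lib.MP_edb5be_nt.ND Pool.Agent.Lib.MP_edb5be_nt.TS

theorem Phi_eq : Phi = H82.PhiG := by
  funext z
  rw [H82.PhiG_eq_integral]
  rfl

open Classical in
/-- The law of the trajectories of the 3x+1 map on the integers of each sign `e`.
(i) Let `W` be a set of integers with only finitely many elements that are not periodic, for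
instance a finite set or a set of periodic points. The integers whose trajectory visits `W` have a
natural density `D`, and `D > 0` if `W` has an element of sign `e` that is prime to 3. Of these
integers, those in a class modulo `2 ^ j * 3 ^ k` that visit `W` for the first time at a time `≡ c`
modulo `m` have the density `D / (m * 2 ^ j * 3 ^ k)`, and those that moreover satisfy the
conditions `Path` of the numbers `z 0, ..., z r` have the density
`D / (m * 2 ^ j * 3 ^ k) * Phi (z 0) * ... * Phi (z r)`. For `r = 0` the condition is that the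
first visit takes at most `ht x / mu + z 0 * b * √(ht x)` steps.
(ii) Every set `S` that is `T`-invariant outside `(-y, y)`, for instance the set of all integers,
has a natural density `D`, and the same is true with the time when the trajectory falls below
`g |x|` in place of the first visit to `W`, for every `g` that tends to infinity with
`log (g n) = o(√(log n))`.
(iii) For all `g`, `ψ` that tend to infinity and every `l`, almost all `x` have this property: for
all `k`, if the trajectory stays at least `g |x|` in absolute value up to the time `k`, then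
`|ht (T^[k] x) - (ht x - mu * k)| ≤ ψ |x| * √(ht x)`, and for each `a` the number of the `i < k`
with `T^[i] x ≡ a` modulo `2 ^ l` differs from `k / 2 ^ l` by at most `ψ |x| * √(ht x)`. -/
theorem result : ∀ e : ℤ, e = 1 ∨ e = -1 →
    (∀ W : Set ℤ, (W \ Function.periodicPts T).Finite → ∃ D : ℝ,
      HasDensity e {x : ℤ | ∃ t : ℕ, T^[t] x ∈ W} D ∧
      ((∃ x ∈ W, 0 < e * x ∧ ¬ (3 : ℤ) ∣ x) → 0 < D) ∧
      ∀ m : ℕ, 0 < m → ∀ (c j k : ℕ) (a : ℤ),
        HasDensity e {x : ℤ | x ≡ a [ZMOD 2 ^ j * 3 ^ k] ∧ ∃ t : ℕ, First W x t ∧ t ≡ c [MOD m]}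
          (D / (m * 2 ^ j * 3 ^ k)) ∧
        ∀ (r : ℕ) (s z : ℕ → ℝ), s 0 = 0 → (∀ i < r, s i < s (i + 1)) → mu * s r < 1 →
          HasDensity e {x : ℤ | x ≡ a [ZMOD 2 ^ j * 3 ^ k] ∧
            Path (fun t => First W x t ∧ t ≡ c [MOD m]) r s z x}
            (D / (m * 2 ^ j * 3 ^ k) * ∏ i ∈ Finset.range (r + 1), Phi (z i))) ∧
    (∀ (y : ℝ) (S : Set ℤ), (∀ x : ℤ, y ≤ |(x : ℝ)| → (x ∈ S ↔ T x ∈ S)) →
      ∃ D : ℝ, HasDensity e S D ∧ ∀ g : ℕ → ℝ, Filter.Tendsto g Filter.atTop Filter.atTop →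
        Filter.Tendsto (fun n : ℕ => Real.log (g n) / √(Real.log n)) Filter.atTop (nhds 0) →
        ∀ (j k : ℕ) (a : ℤ) (r : ℕ) (s z : ℕ → ℝ), s 0 = 0 → (∀ i < r, s i < s (i + 1)) →
          mu * s r < 1 → HasDensity e {x : ℤ | x ∈ S ∧ x ≡ a [ZMOD 2 ^ j * 3 ^ k] ∧
            Path (fun t => |((T^[t] x : ℤ) : ℝ)| < g x.natAbs) r s z x}
            (D / (2 ^ j * 3 ^ k) * ∏ i ∈ Finset.range (r + 1), Phi (z i))) ∧
    (∀ g ψ : ℕ → ℝ, Filter.Tendsto g Filter.atTop Filter.atTop →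
      Filter.Tendsto ψ Filter.atTop Filter.atTop → ∀ l : ℕ,
      HasDensity e {x : ℤ | ∀ k : ℕ, (∀ j ≤ k, g x.natAbs ≤ |((T^[j] x : ℤ) : ℝ)|) →
        |ht (T^[k] x) - (ht x - mu * k)| ≤ ψ x.natAbs * √(ht x) ∧
        ∀ a : ℤ, |((((Finset.range k).filter fun i => T^[i] x ≡ a [ZMOD 2 ^ l]).card : ℕ) : ℝ) -
          (k : ℝ) / 2 ^ l| ≤ ψ x.natAbs * √(ht x)} 1) := by
  intro e he
  obtain ⟨d, rfl⟩ : ∃ d : Bool, e = sg d := by
    rcases he with rfl | rfl
    · exact ⟨true, rfl⟩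
    · exact ⟨false, rfl⟩
  rw [Phi_eq]
  refine ⟨?_, ?_, ?_⟩
  · intro W hW
    obtain ⟨y, hy⟩ := Pool.Agent.Lib.MP_edb5be_nt.TS.H58.hitZ_inv hW
    obtain ⟨D, hD⟩ := Pool.Agent.Lib.MP_edb5be_nt.TS.H58.dens_ex d y _ hy
    refine ⟨D, hD, ?_, ?_⟩
    · rintro ⟨x, hx, hs, h3⟩
      exact Pool.Agent.Lib.MP_edb5be_nt.TS.H58.dens_pos hD hx hs h3
    · intro m hm c j k a
      exact Pool.Agent.Lib.MP_edb5be_nt.TS.H58.dwmz_inf
        Pool.Agent.Lib.MP_edb5be_nt.TS.H58.dwmzT d hW hD hm c j k a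
  · intro y S hS
    obtain ⟨D, hD⟩ := Pool.Agent.Lib.MP_edb5be_nt.TS.H58.dens_ex d y S hS
    exact ⟨D, hD, fun g h1 h2 j k a r s z h3 h4 h5 =>
      Pool.Agent.Lib.MP_edb5be_nt.TS.H58.dwszT d S y D hS hD g h1 h2 r s z h3 h4 h5 j k a⟩
  · intro g ψ hg hψ l
    exact Pool.Agent.Lib.MP_edb5be_nt.TS.H58.bothT d g ψ hg hψ l

end Pool.Agent.Results.MP_edb5be_nt.StoppingTimeLaw
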